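import Pool.Agent.H41.T1.S5
import Pool.Agent.H79.HYP.GEO
import Pool.Agent.H45.HYP.BAD
import Pool.Agent.H82.T1.ALLK

/-!
# T1, row BADK: few polynomials have a bad class
-/

set_option autoImplicit false

namespace Pool.T1

open Polynomial Matrix Pool.HYP Pool.TOW Pool.AVS IsDedekindDomain

/-- BADK. -/
theorem badk (hQGE : QGEKStmt) (hPRD : PRDKStmt) (hCTT : CTTKStmt) (hCTM : CTMKStmt)
    (hCT1 : CT1KStmt) (hCT2 : CT2KStmt) (hCTA : CTAKStmt) (hEXP : EXPKStmt)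
    (hNUM : NUMKStmt) : BADKStmt := by
  classical
  intro R _ _ K _ _ _ O π H hU hLe hCe g hg hKe hFe hI T'
  obtain ⟨c1, hL⟩ := hLe
  obtain ⟨C2, hC⟩ := hCe
  obtain ⟨C3, hK⟩ := hKe
  obtain ⟨c4, hF⟩ := hFe
  obtain ⟨C, hCdef⟩ : ∃ C : ℕ, C = C3.toNat := ⟨_, rfl⟩
  obtain ⟨c5, hE⟩ := hEXP g C
  obtain ⟨c6, hN⟩ := hNUM g C
  have hQ3 : 3 ≤ qq O := hQGE R K O π H
  have hall : ∀ h : ℕ, (All R O π g h).Finite := fun h =>
    (allk R K O π H (fun m => (hU m).1) g h).1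
  generalize hQ : qq O = Q at *
  have hQ0' : 0 < Q := by omega
  have hQ1' : 1 < Q := by omega
  obtain ⟨M', hM'⟩ : ∃ M', M' = ∏ P ∈ T', Nm P ^ (2 * g + 1) := ⟨_, rfl⟩
  obtain ⟨A0, hA0⟩ : ∃ A0, A0 = 2 * c1 ^ ((2 * g + 1) * (2 * g + 1)) * Q ^ c5 * c4 * M' := ⟨_, rfl⟩
  refine ⟨16 * (A0 * (c6 * 2 ^ g)), C, fun D hD hT' hk hP => ?_⟩
  obtain ⟨k, hkdef⟩ : ∃ k, k = D.T.card := ⟨_, rfl⟩
  obtain ⟨MT, hMT⟩ : ∃ MT, MT = ∏ P ∈ D.T, Nm P := ⟨_, rfl⟩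
  have hMT0 : 0 < MT := by
    rw [hMT]
    exact Finset.prod_pos fun P hP' => lt_of_le_of_lt (Nat.zero_le _) (hP P hP').1
  have hMTN : ∏ P ∈ D.T, Nm P ^ (2 * g + 1) = MT ^ (2 * g + 1) := by
    rw [hMT, Finset.prod_pow]
  obtain ⟨M, hM⟩ : ∃ M, M = C2 * MT := ⟨_, rfl⟩
  have hMQ : C2 * MT ≤ Q ^ M := by
    rw [← hM]
    exact (Nat.lt_pow_self hQ1').le
  obtain ⟨A1, hA1⟩ : ∃ A1, A1 = c1 ^ ((2 * g + 1) * (2 * g + 1)) * Q ^ c5 * c4 *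
    (MT ^ (2 * g + 1) * M') := ⟨_, rfl⟩
  have hQ1 : (1 : ℝ) < (Q : ℝ) := by exact_mod_cast hQ1'
  have hQ0 : (0 : ℝ) < (Q : ℝ) := by linarith
  obtain ⟨h₁, hdh, hgrow⟩ := BDZ.growth (Q : ℝ) hQ1 g (M + 4 * C) (16 * (A1 : ℝ) * c6)
  obtain ⟨h₂, hF2⟩ := hF D hD
  refine ⟨max h₁ h₂, fun h hh => ?_⟩
  have hh1 : h₁ ≤ h := (le_max_left _ _).trans hh
  have hh2 : h₂ ≤ h := (le_max_right _ _).trans hh
  have hFh := hF2 h hh2
  rw [hMTN, hT', ← hM', hQ] at hFh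
  obtain ⟨Φ, hΦ⟩ : ∃ Φ, Φ = (Fam π g D h).ncard := ⟨_, rfl⟩
  rw [← hΦ] at hFh
  have hFamfin : (Fam π g D h).Finite := (hall h).subset fun f hf => hf.1
  have hMh : M ≤ h := by omega
  obtain ⟨m, hm⟩ : ∃ m, m = (h - M) / 2 := ⟨_, rfl⟩
  -- the bound by the pairs
  have hPF : ∀ d : Fin (2 * g + 1) → ℤ, Adm (C : ℤ) d →
      (PFK π g D h d).ncard * Q ^ EUk d ≤
        c1 ^ ((2 * g + 1) * (2 * g + 1)) * (PPK π g D h d).ncard := by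
    intro d hd
    have h3 := hCT1 R K O π H g D h d hg hD (hI D h hD) hd.1 (hCTT R K O π hU g D h d).1
    have h4 := (hCT2 R K O π H hU c1 hL (2 * g + 1) d hd.1).2
    rw [hQ] at h4
    calc (PFK π g D h d).ncard * Q ^ EUk d ≤ (PFK π g D h d).ncard *
          (c1 ^ ((2 * g + 1) * (2 * g + 1)) * (UUK R O π d).ncard) := Nat.mul_le_mul_left _ h4
      _ = c1 ^ ((2 * g + 1) * (2 * g + 1)) * ((PFK π g D h d).ncard * (UUK R O π d).ncard) := by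
          ring
      _ ≤ _ := Nat.mul_le_mul_left _ h3
  -- the main part
  have hmain : ∀ d : Fin (2 * g + 1) → ℤ, Adm (C : ℤ) d → Alw (h + 4 * C) (muK d) →
      (M : ℤ) ≤ 2 * d ⟨0, by omega⟩ + h →
      2 ^ k * (PFK π g D h d).ncard * Q ^ (∑ i, muK d i) ≤ A0 * Φ := by
    intro d hd ha hm0
    have hi : ∀ i, (M : ℤ) ≤ 2 * d i + h := fun i => by
      have h3 : d ⟨0, by omega⟩ ≤ d i := hd.1 (Fin.mk_le_of_le_val (Nat.zero_le _))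
      omega
    have hcnt : ∀ (i j : Fin (2 * g + 1)) (r : R),
        {a ∈ Lm R O π (d i + d j + h) | a - r ∈ ∏ P ∈ D.T, P.asIdeal}.ncard *
          (∏ P ∈ D.T, Nm P) ≤ qq O ^ (d i + d j + h + 1).toNat := by
      intro i j r
      have h5 := hi i
      have h6 := hi j
      obtain ⟨n, hn⟩ := Int.eq_ofNat_of_zero_le (show 0 ≤ d i + d j + h by omega)
      have hMn : M ≤ n := by omega
      rw [hn]
      have hne : (∏ P ∈ D.T, P.asIdeal) ≠ ⊥ := by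
        rw [← Ideal.zero_eq_bot, Finset.prod_ne_zero_iff]
        intro P _
        rw [Ideal.zero_eq_bot]
        exact P.ne_bot
      have h7 := hC (∏ P ∈ D.T, P.asIdeal) n hne (by
        rw [hPRD, ← hMT, hQ]
        exact hMQ.trans (Nat.pow_le_pow_right hQ0' hMn)) r
      rw [hPRD] at h7
      rw [h7]
      refine (hU _).2.trans (le_of_eq ?_)
      rfl
    have h3 := hCTM R K O π H hU g D h d hg hD (fun P hP' => (hP P hP').2) hcnt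
    rw [← hMT, ← hkdef, hQ] at h3
    have h4 := (hE h d hd ha).2 fun i => by
      have := hi i
      omega
    have h5 := hPF d hd
    have hpos : 0 < Q ^ EUk d * MT ^ (2 * g + 1) := by positivity
    refine Nat.le_of_mul_le_mul_right ?_ hpos
    obtain ⟨P1, hP1⟩ : ∃ P1, P1 = (PFK π g D h d).ncard := ⟨_, rfl⟩
    obtain ⟨P2, hP2⟩ : ∃ P2, P2 = (PPK π g D h d).ncard := ⟨_, rfl⟩
    obtain ⟨c7, hc7⟩ : ∃ c7, c7 = c1 ^ ((2 * g + 1) * (2 * g + 1)) := ⟨_, rfl⟩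
    rw [← hP1, ← hP2, ← hc7] at h5
    rw [← hP2] at h3
    rw [← hP1, hA0, ← hc7]
    calc 2 ^ k * P1 * Q ^ (∑ i, muK d i) * (Q ^ EUk d * MT ^ (2 * g + 1))
        = 2 ^ k * Q ^ (∑ i, muK d i) * MT ^ (2 * g + 1) * (P1 * Q ^ EUk d) := by ring
      _ ≤ 2 ^ k * Q ^ (∑ i, muK d i) * MT ^ (2 * g + 1) * (c7 * P2) := Nat.mul_le_mul_left _ h5
      _ = Q ^ (∑ i, muK d i) * c7 * (2 ^ k * P2 * MT ^ (2 * g + 1)) := by ring
      _ ≤ Q ^ (∑ i, muK d i) * c7 * (2 * Q ^ (EGk d + ESk d h)) := Nat.mul_le_mul_left _ h3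
      _ = 2 * c7 * Q ^ (EGk d + ESk d h + ∑ i, muK d i) := by ring
      _ ≤ 2 * c7 * Q ^ (EUk d + h * ((2 * g + 1) * (g + 1)) + c5) :=
          Nat.mul_le_mul_left _ (Nat.pow_le_pow_right hQ0' h4)
      _ = 2 * c7 * Q ^ EUk d * Q ^ c5 * Q ^ (h * ((2 * g + 1) * (g + 1))) := by ring
      _ ≤ 2 * c7 * Q ^ EUk d * Q ^ c5 * (c4 * (Φ * MT ^ (2 * g + 1) * M')) :=
          Nat.mul_le_mul_left _ hFh
      _ = 2 * c7 * Q ^ c5 * c4 * M' * Φ * (Q ^ EUk d * MT ^ (2 * g + 1)) := by ring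
  -- the other part
  have hother : ∀ d : Fin (2 * g + 1) → ℤ, Adm (C : ℤ) d → Alw (h + 4 * C) (muK d) →
      ¬ (M : ℤ) ≤ 2 * d ⟨0, by omega⟩ + h →
      (PFK π g D h d).ncard * Q ^ m ≤ A1 * Φ := by
    intro d hd ha hm0
    have h4 := (hE h d hd ha).1 ⟨0, hg⟩ m (by
      show m ≤ (-d ⟨0, _⟩).toNat
      omega) (by omega)
    have h5 := hPF d hd
    have h3 := (hCTT R K O π hU g D h d).2
    rw [hQ] at h3
    have hpos : 0 < Q ^ EUk d := by positivity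
    refine Nat.le_of_mul_le_mul_right ?_ hpos
    obtain ⟨P1, hP1⟩ : ∃ P1, P1 = (PFK π g D h d).ncard := ⟨_, rfl⟩
    obtain ⟨P2, hP2⟩ : ∃ P2, P2 = (PPK π g D h d).ncard := ⟨_, rfl⟩
    obtain ⟨c7, hc7⟩ : ∃ c7, c7 = c1 ^ ((2 * g + 1) * (2 * g + 1)) := ⟨_, rfl⟩
    rw [← hP1, ← hP2, ← hc7] at h5
    rw [← hP2] at h3
    rw [← hP1, hA1, ← hc7]
    calc P1 * Q ^ m * Q ^ EUk d = Q ^ m * (P1 * Q ^ EUk d) := by ring
      _ ≤ Q ^ m * (c7 * P2) := Nat.mul_le_mul_left _ h5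
      _ = Q ^ m * c7 * P2 := by ring
      _ ≤ Q ^ m * c7 * Q ^ (EGk d + ESk d h) := Nat.mul_le_mul_left _ h3
      _ = c7 * Q ^ (EGk d + ESk d h + m) := by ring
      _ ≤ c7 * Q ^ (EUk d + h * ((2 * g + 1) * (g + 1)) + c5) :=
          Nat.mul_le_mul_left _ (Nat.pow_le_pow_right hQ0' h4)
      _ = c7 * Q ^ EUk d * Q ^ c5 * Q ^ (h * ((2 * g + 1) * (g + 1))) := by ring
      _ ≤ c7 * Q ^ EUk d * Q ^ c5 * (c4 * (Φ * MT ^ (2 * g + 1) * M')) :=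
          Nat.mul_le_mul_left _ hFh
      _ = c7 * Q ^ c5 * c4 * (MT ^ (2 * g + 1) * M') * Φ * Q ^ EUk d := by ring
  -- both parts
  have hboth : ∀ d : Fin (2 * g + 1) → ℤ, Adm (C : ℤ) d → Alw (h + 4 * C) (muK d) →
      ((PFK π g D h d).ncard : ℝ) ≤
        ((A0 : ℝ) / 2 ^ k * Φ) * ((Q : ℝ) ^ (∑ i, muK d i))⁻¹ + (A1 : ℝ) * Φ / (Q : ℝ) ^ m := by
    intro d hd ha
    have hp1 : 0 ≤ ((A0 : ℝ) / 2 ^ k * Φ) * ((Q : ℝ) ^ (∑ i, muK d i))⁻¹ := by positivity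
    have hp2 : 0 ≤ (A1 : ℝ) * Φ / (Q : ℝ) ^ m := by positivity
    by_cases hm0 : (M : ℤ) ≤ 2 * d ⟨0, by omega⟩ + h
    · have h3 := hmain d hd ha hm0
      have h3' : (2 : ℝ) ^ k * ((PFK π g D h d).ncard : ℝ) * (Q : ℝ) ^ (∑ i, muK d i) ≤
        (A0 : ℝ) * Φ := by exact_mod_cast h3
      have hB : (0 : ℝ) < (2 : ℝ) ^ k := by positivity
      have hC' : (0 : ℝ) < (Q : ℝ) ^ (∑ i, muK d i) := by positivity
      have h4 : ((PFK π g D h d).ncard : ℝ) ≤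
          ((A0 : ℝ) / 2 ^ k * Φ) * ((Q : ℝ) ^ (∑ i, muK d i))⁻¹ := by
        rw [← div_eq_mul_inv, le_div_iff₀ hC', div_mul_eq_mul_div, le_div_iff₀ hB]
        linarith
      linarith
    · have h3 := hother d hd ha hm0
      have h3' : ((PFK π g D h d).ncard : ℝ) * (Q : ℝ) ^ m ≤ (A1 : ℝ) * Φ := by
        exact_mod_cast h3
      have hB : (0 : ℝ) < (Q : ℝ) ^ m := by positivity
      have h4 : ((PFK π g D h d).ncard : ℝ) ≤ (A1 : ℝ) * Φ / (Q : ℝ) ^ m := by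
        rw [le_div_iff₀ hB]
        exact h3'
      linarith
  -- the index sets
  obtain ⟨A, hA⟩ : ∃ A : Finset (Fin g → ℕ), A =
    (Fintype.piFinset (fun _ : Fin g => Finset.range (g * (h + 4 * C) + 1))).filter
      (fun μ => Alw (h + 4 * C) μ) := ⟨_, rfl⟩
  have hAcard : (A.card : ℝ) ≤ ((g * (h + 4 * C) + 1 : ℕ) : ℝ) ^ g := by
    have h3 : A.card ≤
        (Fintype.piFinset (fun _ : Fin g => Finset.range (g * (h + 4 * C) + 1))).card := by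
      rw [hA]
      exact Finset.card_filter_le _ _
    rw [Fintype.card_piFinset] at h3
    simp only [Finset.card_range, Finset.prod_const, Finset.card_univ, Fintype.card_fin] at h3
    exact_mod_cast h3
  have hAmem : ∀ μ : Fin g → ℕ, Alw (h + 4 * C) μ → μ ∈ A := by
    intro μ hμ
    rw [hA]
    refine Finset.mem_filter.2 ⟨?_, hμ⟩
    rw [Fintype.mem_piFinset]
    intro i
    rw [Finset.mem_range]
    have := BDZ.alw_le hμ i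
    omega
  have hAalw : ∀ μ ∈ A, Alw (h + 4 * C) μ := fun μ hμ => by
    rw [hA] at hμ
    exact (Finset.mem_filter.1 hμ).2
  obtain ⟨B, hB⟩ : ∃ B : (Fin g → ℕ) → Finset (Fin (2 * g + 1) → ℤ),
      (∀ μ d, d ∈ B μ ↔ Adm (C : ℤ) d ∧ muK d = μ) ∧ ∀ μ, (B μ).card ≤ c6 := by
    refine ⟨fun μ => (hN μ).1.toFinset, fun μ d => ?_, fun μ => ?_⟩
    · rw [Set.Finite.mem_toFinset]
      rfl
    · have h3 := (hN μ).2
      rwa [Set.ncard_eq_toFinset_card _ (hN μ).1] at h3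
  have hPFfin : ∀ d, (PFK π g D h d).Finite := fun d => hFamfin.subset fun f hf => hf.1
  have hbad : {f ∈ Fam π g D h | Bad K D.T f} ⊆ ⋃ μ ∈ A, ⋃ d ∈ B μ, PFK π g D h d := by
    rintro f ⟨hf, hfb⟩
    obtain ⟨d, G, S, hd, hPM⟩ := hK D h hD (fun P hP' => by
      have h3 := (hP P hP').1
      have h4 : (Nat.card (R ⧸ P.asIdeal) : ℤ) = (Nm P : ℤ) := rfl
      rw [h4]
      omega) f hf hfb
    have hd' : Adm (C : ℤ) d := ⟨hd.1, hd.2.1, hd.2.2.trans (by omega)⟩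
    have hmem : f ∈ PFK π g D h d := ⟨hf, G, S, hPM⟩
    have halw := hCTA R K O π H g D h C d hg (hI D h hD) hd' ⟨f, hmem⟩
    exact Set.mem_iUnion₂.2 ⟨muK d, hAmem _ halw,
      Set.mem_iUnion₂.2 ⟨d, (hB.1 _ _).2 ⟨hd', rfl⟩, hmem⟩⟩
  have hcard : ({f ∈ Fam π g D h | Bad K D.T f}.ncard : ℝ) ≤
      ∑ μ ∈ A, ∑ d ∈ B μ, ((PFK π g D h d).ncard : ℝ) := by
    have h3 : {f ∈ Fam π g D h | Bad K D.T f}.ncard ≤
        ∑ μ ∈ A, ∑ d ∈ B μ, (PFK π g D h d).ncard := by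
      have hUfin : (⋃ μ ∈ A, ⋃ d ∈ B μ, PFK π g D h d).Finite :=
        A.finite_toSet.biUnion fun μ _ => (B μ).finite_toSet.biUnion fun d _ => hPFfin d
      refine (Set.ncard_le_ncard hbad hUfin).trans ?_
      refine (Finset.set_ncard_biUnion_le A _).trans ?_
      exact Finset.sum_le_sum fun μ _ => Finset.set_ncard_biUnion_le (B μ) _
    exact_mod_cast h3
  have hk2 : ((16 : ℝ) * (A0 * (c6 * 2 ^ g))) ≤ 2 ^ k := by
    have h3 : 16 * (A0 * (c6 * 2 ^ g)) ≤ 2 ^ k := by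
      rw [hkdef]
      exact hk.trans Nat.lt_two_pow_self.le
    exact_mod_cast h3
  have hg2 := hgrow (h + 4 * C) (by omega)
  have hm2 : (h + 4 * C - (M + 4 * C)) / 2 = m := by omega
  rw [hm2] at hg2
  have hΦ0 : (0 : ℝ) ≤ (Φ : ℝ) := by positivity
  have hsum : ∑ μ ∈ A, ∑ d ∈ B μ, ((PFK π g D h d).ncard : ℝ) ≤ Φ / 16 + Φ / 16 := by
    have h3 : ∀ μ ∈ A, ∑ d ∈ B μ, ((PFK π g D h d).ncard : ℝ) ≤
        (c6 : ℝ) * (((A0 : ℝ) / 2 ^ k * Φ) * ((Q : ℝ) ^ (∑ i, μ i))⁻¹ +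
          (A1 : ℝ) * Φ / (Q : ℝ) ^ m) := by
      intro μ hμ
      have hp : 0 ≤ ((A0 : ℝ) / 2 ^ k * Φ) * ((Q : ℝ) ^ (∑ i, μ i))⁻¹ +
          (A1 : ℝ) * Φ / (Q : ℝ) ^ m := by positivity
      calc ∑ d ∈ B μ, ((PFK π g D h d).ncard : ℝ)
          ≤ ∑ d ∈ B μ, (((A0 : ℝ) / 2 ^ k * Φ) * ((Q : ℝ) ^ (∑ i, μ i))⁻¹ +
            (A1 : ℝ) * Φ / (Q : ℝ) ^ m) := by
            refine Finset.sum_le_sum fun d hd => ?_
            obtain ⟨h4, h5⟩ := (hB.1 μ d).1 hd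
            have h6 := hboth d h4 (h5 ▸ hAalw μ hμ)
            rw [h5] at h6
            exact h6
        _ = ((B μ).card : ℝ) * (((A0 : ℝ) / 2 ^ k * Φ) * ((Q : ℝ) ^ (∑ i, μ i))⁻¹ +
            (A1 : ℝ) * Φ / (Q : ℝ) ^ m) := by rw [Finset.sum_const, nsmul_eq_mul]
        _ ≤ _ := mul_le_mul_of_nonneg_right (by exact_mod_cast hB.2 μ) hp
    refine (Finset.sum_le_sum h3).trans ?_
    have h4 : ∑ μ ∈ A, (c6 : ℝ) * (((A0 : ℝ) / 2 ^ k * Φ) * ((Q : ℝ) ^ (∑ i, μ i))⁻¹ +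
          (A1 : ℝ) * Φ / (Q : ℝ) ^ m) =
        (c6 : ℝ) * ((A0 : ℝ) / 2 ^ k * Φ) * (∑ μ ∈ A, ((Q : ℝ) ^ (∑ i, μ i))⁻¹) +
          (A.card : ℝ) * ((c6 : ℝ) * ((A1 : ℝ) * Φ / (Q : ℝ) ^ m)) := by
      have h5 : (A.card : ℝ) * ((c6 : ℝ) * ((A1 : ℝ) * Φ / (Q : ℝ) ^ m)) =
          ∑ μ ∈ A, ((c6 : ℝ) * ((A1 : ℝ) * Φ / (Q : ℝ) ^ m)) := by
        rw [Finset.sum_const, nsmul_eq_mul]
      rw [Finset.mul_sum, h5, ← Finset.sum_add_distrib]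
      refine Finset.sum_congr rfl fun μ _ => ?_
      ring
    rw [h4]
    apply add_le_add
    · have h5 := geo g Q hQ3 A
      have hp : 0 ≤ (c6 : ℝ) * ((A0 : ℝ) / 2 ^ k * Φ) := by positivity
      refine (mul_le_mul_of_nonneg_left h5 hp).trans ?_
      have hB' : (0 : ℝ) < (2 : ℝ) ^ k := by positivity
      have h6 : (c6 : ℝ) * ((A0 : ℝ) / 2 ^ k) * 2 ^ g ≤ 1 / 16 := by
        rw [mul_div_assoc', div_mul_eq_mul_div, div_le_iff₀ hB']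
        linarith
      calc (c6 : ℝ) * ((A0 : ℝ) / 2 ^ k * Φ) * 2 ^ g
          = Φ * ((c6 : ℝ) * ((A0 : ℝ) / 2 ^ k) * 2 ^ g) := by ring
        _ ≤ Φ * (1 / 16) := mul_le_mul_of_nonneg_left h6 hΦ0
        _ = Φ / 16 := by ring
    · have hB' : (0 : ℝ) < (Q : ℝ) ^ m := by positivity
      have hp : 0 ≤ (c6 : ℝ) * ((A1 : ℝ) * Φ / (Q : ℝ) ^ m) := by positivity
      refine (mul_le_mul_of_nonneg_right hAcard hp).trans ?_
      have h6 : ((g * (h + 4 * C) + 1 : ℕ) : ℝ) ^ g * (c6 * A1) / (Q : ℝ) ^ m ≤ 1 / 16 := by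
        rw [div_le_iff₀ hB']
        nlinarith [hg2]
      calc ((g * (h + 4 * C) + 1 : ℕ) : ℝ) ^ g * ((c6 : ℝ) * ((A1 : ℝ) * Φ / (Q : ℝ) ^ m))
          = Φ * (((g * (h + 4 * C) + 1 : ℕ) : ℝ) ^ g * (c6 * A1) / (Q : ℝ) ^ m) := by ring
        _ ≤ Φ * (1 / 16) := mul_le_mul_of_nonneg_left h6 hΦ0
        _ = Φ / 16 := by ring
  have hfinal : (8 : ℝ) * ({f ∈ Fam π g D h | Bad K D.T f}.ncard : ℝ) ≤ Φ := by linarith
  rw [← hΦ]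
  exact_mod_cast hfinal

end Pool.T1
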