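import Pool.Agent.H29.T1.S2
import Pool.Agent.H49.TOW.EXC

/-!
# T1, row CMPK: existence of the completions
-/

set_option autoImplicit false

namespace Pool.T1

open Polynomial Matrix Pool.HYP Pool.TOW Pool.AVS IsDedekindDomain WithZero Pool.AVS.CPP

/-- CMPK. -/
theorem cmpk : CMPKStmt := by
  intro R _ _ K _ _ _ O π H P
  have hfin := H.fin P.asIdeal P.ne_bot
  obtain ⟨ϖ, h1, h2⟩ : ∃ ϖ : R, ϖ ∈ P.asIdeal ∧ ϖ ∉ P.asIdeal ^ 2 := by
    obtain ⟨x, hx, hx'⟩ := Ideal.exists_mem_pow_notMem_pow_succ P.asIdeal P.ne_bot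
      P.isPrime.ne_top 1
    exact ⟨x, by rwa [pow_one] at hx, hx'⟩
  have hv1 : ∀ x : K, Valued.v (algebraMap K (P.adicCompletion K) x) = P.valuation K x :=
    fun x => HeightOneSpectrum.valuedAdicCompletion_eq_valuation' (v := P) x
  have hpow : ∀ (a : R) (n : ℕ), P.valuation K (algebraMap R K a) ≤ exp (-(n : ℤ)) ↔
      a ∈ P.asIdeal ^ n := fun a n => by
    rw [HeightOneSpectrum.valuation_of_algebraMap]
    exact HeightOneSpectrum.intValuation_le_pow_iff_mem P a n
  have hϖ : Valued.v (algebraMap K (P.adicCompletion K) (algebraMap R K ϖ)) = exp (-1 : ℤ) := by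
    rw [hv1]
    have h3 := (hpow ϖ 1).2 (by rwa [pow_one])
    have h4 : ¬ P.valuation K (algebraMap R K ϖ) ≤ exp (-((2 : ℕ) : ℤ)) := fun h => h2 ((hpow ϖ 2).1 h)
    have h5 : P.valuation K (algebraMap R K ϖ) ≠ 0 := by
      intro h6
      rw [h6] at h4
      exact h4 zero_le
    obtain ⟨k, hk⟩ : ∃ k : ℤ, P.valuation K (algebraMap R K ϖ) = exp k :=
      ⟨log _, (exp_log h5).symm⟩
    rw [hk, exp_le_exp] at h3 h4
    rw [hk]
    congr 1
    push_cast at h3 h4
    omega
  have hcpl := Pool.TOW.Exc49.cpl_of K R P hfin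
  obtain ⟨p, hp, hc⟩ := H.char
  have hinj : Function.Injective (algebraMap R K) := IsFractionRing.injective R K
  have h2u : ∃ k : R, (2 : R) * k = 1 := by
    have hp2 : p ≠ 2 := by
      rintro rfl
      have h8 : ((2 : ℕ) : K) = 0 := CharP.cast_eq_zero K 2
      exact H.two (by exact_mod_cast h8)
    obtain ⟨k, hk⟩ := hp.odd_of_ne_two hp2
    refine ⟨((k + 1 : ℕ) : R), hinj ?_⟩
    have h8 : ((p : ℕ) : K) = 0 := CharP.cast_eq_zero K p
    rw [hk] at h8
    rw [map_mul, map_natCast, map_one, map_ofNat]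
    push_cast at h8 ⊢
    linear_combination h8
  have h21 : Valued.v (2 : P.adicCompletion K) = 1 := by
    obtain ⟨k, hk⟩ := h2u
    have h3 : (2 : P.adicCompletion K) =
        algebraMap K (P.adicCompletion K) (algebraMap R K (2 : R)) := by
      rw [map_ofNat, map_ofNat]
    rw [h3, hv1]
    have h4 := congrArg (fun x => P.valuation K (algebraMap R K x)) hk
    simp only [map_mul, map_one] at h4
    have h5 := P.valuation_le_one (K := K) (2 : R)
    have h6 := P.valuation_le_one (K := K) k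
    refine le_antisymm h5 ?_
    rw [← h4]
    exact mul_le_of_le_one_right' h6
  have h20 : (2 : P.adicCompletion K) ≠ 0 := by
    intro h3
    rw [h3, map_zero] at h21
    exact zero_ne_one h21
  refine ⟨ϖ, P.adicCompletion K, inferInstance, P.adicCompletionIntegers K,
    algebraMap K (P.adicCompletion K), h1, h2, ?_, ?_, ?_, hcpl⟩
  · exact loc_of _ hϖ h20 h21 hcpl.fin
  · intro a
    change Valued.v (algebraMap K (P.adicCompletion K) (algebraMap R K a)) ≤ 1
    rw [hv1]
    exact P.valuation_le_one a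
  · intro a
    change Valued.v (algebraMap K (P.adicCompletion K) (algebraMap R K a) /
      algebraMap K (P.adicCompletion K) (algebraMap R K ϖ)) ≤ 1 ↔ a ∈ P.asIdeal
    rw [map_div₀, hϖ, div_le_one₀ (zero_lt_iff.2 exp_ne_zero), hv1]
    have h3 := hpow a 1
    rw [pow_one] at h3
    exact h3

end Pool.T1
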