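import Pool.Agent.H14.T1.S3

/-!
# T1, row HYB: `A ⊕ -B` has a self-dual lattice if `A` is near to `B`
-/

set_option autoImplicit false

namespace Pool.T1

open Polynomial Matrix Pool.HYP Pool.TOW Pool.AVS IsDedekindDomain

namespace HYB50

/-- A common denominator. -/
theorem den {L : Type} [Field L] (O : ValuationSubring L) (s : Finset L) :
    ∃ b : L, b ≠ 0 ∧ b ∈ O ∧ ∀ x ∈ s, b * x ∈ O := by
  classical
  induction s using Finset.induction_on with
  | empty => exact ⟨1, one_ne_zero, O.one_mem, fun x hx => absurd hx (Finset.notMem_empty x)⟩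
  | insert y s _ ih =>
    obtain ⟨b, hb, hbO, hbs⟩ := ih
    rcases O.mem_or_inv_mem y with hy | hy
    · refine ⟨b, hb, hbO, fun x hx => ?_⟩
      rcases Finset.mem_insert.1 hx with rfl | hx
      · exact O.mul_mem _ _ hbO hy
      · exact hbs x hx
    · by_cases hy0 : y = 0
      · refine ⟨b, hb, hbO, fun x hx => ?_⟩
        rcases Finset.mem_insert.1 hx with rfl | hx
        · rw [hy0, mul_zero]
          exact O.zero_mem
        · exact hbs x hx
      · refine ⟨b * y⁻¹, mul_ne_zero hb (inv_ne_zero hy0), O.mul_mem _ _ hbO hy,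
          fun x hx => ?_⟩
        rcases Finset.mem_insert.1 hx with rfl | hx
        · rw [mul_assoc, inv_mul_cancel₀ hy0, mul_one]
          exact hbO
        · rw [show b * y⁻¹ * x = y⁻¹ * (b * x) by ring]
          exact O.mul_mem _ _ hy (hbs x hx)

/-- A matrix near to an invertible one is invertible. -/
theorem unit_det {L : Type} [Field L] (O : ValuationSubring L) {κ : Type} [Fintype κ]
    [DecidableEq κ] (π : L) (h1 : π ∈ O) (h2 : π⁻¹ ∉ O) (J' : Matrix κ κ O)
    (hJ : IsUnit J'.det) (M : Matrix κ κ L)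
    (hM : ∀ i j, (M i j - (J' i j : L)) / π ∈ O) : GInI (O : Set L) M := by
  have h0 : π ≠ 0 := by
    rintro rfl
    rw [_root_.inv_zero] at h2
    exact h2 O.zero_mem
  obtain ⟨ϖ, hϖ⟩ : ∃ ϖ : O, ϖ = ⟨π, h1⟩ := ⟨_, rfl⟩
  obtain ⟨M', hM'⟩ : ∃ M' : Matrix κ κ O,
    M' = Matrix.of fun i j => J' i j + ϖ * ⟨(M i j - (J' i j : L)) / π, hM i j⟩ := ⟨_, rfl⟩
  have hMM : M = M'.map O.subtype := by
    ext i j
    rw [hM', Matrix.map_apply, Matrix.of_apply, map_add, map_mul, hϖ]
    show M i j = (J' i j : L) + π * ((M i j - (J' i j : L)) / π)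
    rw [mul_div_cancel₀ _ h0]
    ring
  have hres : IsLocalRing.residue O ϖ = 0 := by
    rw [IsLocalRing.residue_eq_zero_iff, IsLocalRing.mem_maximalIdeal, mem_nonunits_iff]
    intro hu
    apply h2
    obtain ⟨v, hv⟩ := hu.exists_left_inv
    have h3 : (v : L) * π = 1 := by
      have h4 := congrArg (fun z : O => (z : L)) hv
      rw [hϖ] at h4
      exact h4
    have h4 : π⁻¹ = (v : L) := (eq_inv_of_mul_eq_one_left h3).symm
    rw [h4]
    exact v.2
  have hdet : IsUnit M'.det := by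
    rw [← IsLocalRing.residue_ne_zero_iff_isUnit, RingHom.map_det]
    have h3 : (IsLocalRing.residue O).mapMatrix M' = (IsLocalRing.residue O).mapMatrix J' := by
      ext i j
      rw [RingHom.mapMatrix_apply, RingHom.mapMatrix_apply, Matrix.map_apply, Matrix.map_apply, hM',
        Matrix.of_apply, map_add, map_mul, hres, zero_mul, add_zero]
    rw [h3, ← RingHom.map_det, IsLocalRing.residue_ne_zero_iff_isUnit]
    exact hJ
  have hd : M.det = (M'.det : L) := by
    rw [hMM]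
    exact (RingHom.map_det O.subtype M').symm
  refine ⟨fun i j => ?_, ?_⟩
  · rw [hMM]
    exact (M' i j).2
  · rw [hd]
    obtain ⟨v, hv⟩ := hdet.exists_left_inv
    have h3 : (v : L) * (M'.det : L) = 1 := congrArg (fun z : O => (z : L)) hv
    have h4 : (M'.det : L) ≠ 0 := by
      intro h5
      rw [h5, mul_zero] at h3
      exact zero_ne_one h3
    refine ⟨h4, M'.det.2, ?_⟩
    have h5 : (M'.det : L)⁻¹ = (v : L) := (eq_inv_of_mul_eq_one_left h3).symm
    rw [h5]
    exact v.2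

end HYB50

/-- HYB. -/
theorem hyb : HYBStmt := by
  intro L _ O ι _ _ B h2 hπ hB hBd
  classical
  obtain ⟨π, hπ0, hπ1, hπ2⟩ := hπ
  obtain ⟨c, hc⟩ : ∃ c, c = ((2 : L) • B)⁻¹ := ⟨_, rfl⟩
  have h2B : ((2 : L) • B).det ≠ 0 := by
    rw [Matrix.det_smul]
    exact mul_ne_zero (pow_ne_zero _ h2) hBd
  have h2Bu : IsUnit ((2 : L) • B).det := isUnit_iff_ne_zero.2 h2B
  have hct : cᵀ = c := by
    rw [hc, Matrix.transpose_nonsing_inv, Matrix.transpose_smul, hB]
  have hc1 : ((2 : L) • B) * c = 1 := by rw [hc, Matrix.mul_nonsing_inv _ h2Bu]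
  have hc2 : c * ((2 : L) • B) = 1 := by rw [hc, Matrix.nonsing_inv_mul _ h2Bu]
  have hBc : B * c + B * c = 1 := by
    rw [← hc1, Matrix.smul_mul, two_smul]
  have hcB : c * B + c * B = 1 := by
    rw [← hc2, Matrix.mul_smul, two_smul]
  have hcd : c.det ≠ 0 := by
    intro h3
    have h4 := congrArg Matrix.det hc1
    rw [Matrix.det_mul, h3, mul_zero, Matrix.det_one] at h4
    exact zero_ne_one h4
  obtain ⟨b, hb0, hb1, hb2⟩ := HYB50.den O (Finset.univ.image fun p : ι × ι => c p.1 p.2)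
  have hbc : ∀ i j, b * c i j ∈ O := fun i j =>
    hb2 _ (Finset.mem_image.2 ⟨(i, j), Finset.mem_univ _, rfl⟩)
  refine ⟨π * b ^ 2, mul_ne_zero hπ0 (pow_ne_zero _ hb0), fun A hA hAB => ?_⟩
  obtain ⟨e, he⟩ : ∃ e : Matrix ι ι L, e = Matrix.of fun i j => (A i j - B i j) / (π * b ^ 2) :=
    ⟨_, rfl⟩
  have he1 : ∀ i j, e i j ∈ O := fun i j => by
    rw [he]
    exact hAB i j
  have he2 : A - B = (π * b ^ 2) • e := by
    ext i j
    rw [he, Matrix.smul_apply, Matrix.of_apply, Matrix.sub_apply, smul_eq_mul,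
      mul_div_cancel₀ _ (mul_ne_zero hπ0 (pow_ne_zero _ hb0))]
  obtain ⟨g, hg⟩ : ∃ g : Matrix (ι ⊕ ι) (ι ⊕ ι) L, g = Matrix.fromBlocks 1 c 1 (-c) := ⟨_, rfl⟩
  have hgd : g.det ≠ 0 := by
    rw [hg, Matrix.det_fromBlocks_one₁₁, Matrix.one_mul]
    have h3 : -c - c = (-2 : L) • c := by
      rw [neg_smul, two_smul]
      abel
    rw [h3, Matrix.det_smul]
    exact mul_ne_zero (pow_ne_zero _ (neg_ne_zero.2 h2)) hcd
  have hM : gᵀ * Matrix.fromBlocks A 0 0 (-B) * g =
      Matrix.fromBlocks (A - B) (1 + (A - B) * c) (1 + c * (A - B)) (c * (A - B) * c) := by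
    rw [hg, Matrix.fromBlocks_transpose, Matrix.fromBlocks_multiply, Matrix.fromBlocks_multiply]
    simp only [Matrix.transpose_one, Matrix.transpose_neg, hct, Matrix.one_mul, Matrix.mul_one,
      Matrix.mul_zero, add_zero, zero_add, Matrix.neg_mul, Matrix.mul_neg, neg_neg]
    congr 1
    · rw [sub_eq_add_neg]
    · rw [← hBc, Matrix.sub_mul]
      abel
    · rw [← hcB, Matrix.mul_sub]
      abel
    · rw [Matrix.mul_sub, Matrix.sub_mul]
      abel
  refine ⟨g, hgd, ?_⟩
  rw [hM]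
  obtain ⟨J, hJ⟩ : ∃ J : Matrix (ι ⊕ ι) (ι ⊕ ι) O, J = Matrix.fromBlocks 0 1 1 0 := ⟨_, rfl⟩
  have hJd : IsUnit J.det := by
    have h3 : J * J = 1 := by
      rw [hJ, Matrix.fromBlocks_multiply]
      simp
    have h4 := congrArg Matrix.det h3
    rw [Matrix.det_mul, Matrix.det_one] at h4
    exact IsUnit.of_mul_eq_one _ h4
  refine HYB50.unit_det O π hπ1 hπ2 J hJd _ fun p q => ?_
  have hs : ∀ (s : ι → L), (∀ i, s i ∈ O) → ∑ i, s i ∈ O := fun s hs =>
    sum_mem fun i _ => hs i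
  have hone : ∀ i j, (((1 : Matrix ι ι O) i j : O) : L) = (1 : Matrix ι ι L) i j := fun i j => by
    by_cases hij : i = j
    · subst hij
      rw [Matrix.one_apply_eq, Matrix.one_apply_eq]
      rfl
    · rw [Matrix.one_apply_ne hij, Matrix.one_apply_ne hij]
      rfl
  have hz : ∀ i j, (((0 : Matrix ι ι O) i j : O) : L) = 0 := fun i j => rfl
  rw [hJ]
  rcases p with i | i <;> rcases q with j | j
  · rw [Matrix.fromBlocks_apply₁₁, Matrix.fromBlocks_apply₁₁, hz, sub_zero, he2,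
      Matrix.smul_apply, smul_eq_mul, mul_assoc, mul_div_cancel_left₀ _ hπ0]
    exact O.mul_mem _ _ (pow_mem hb1 2) (he1 i j)
  · rw [Matrix.fromBlocks_apply₁₂, Matrix.fromBlocks_apply₁₂, hone, Matrix.add_apply,
      add_sub_cancel_left, he2, Matrix.smul_mul, Matrix.smul_apply, smul_eq_mul, mul_assoc,
      mul_div_cancel_left₀ _ hπ0, Matrix.mul_apply, Finset.mul_sum]
    refine hs _ fun k => ?_
    rw [show b ^ 2 * (e i k * c k j) = b * (e i k * (b * c k j)) by ring]
    exact O.mul_mem _ _ hb1 (O.mul_mem _ _ (he1 _ _) (hbc _ _))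
  · rw [Matrix.fromBlocks_apply₂₁, Matrix.fromBlocks_apply₂₁, hone, Matrix.add_apply,
      add_sub_cancel_left, he2, Matrix.mul_smul, Matrix.smul_apply, smul_eq_mul, mul_assoc,
      mul_div_cancel_left₀ _ hπ0, Matrix.mul_apply, Finset.mul_sum]
    refine hs _ fun k => ?_
    rw [show b ^ 2 * (c i k * e k j) = b * ((b * c i k) * e k j) by ring]
    exact O.mul_mem _ _ hb1 (O.mul_mem _ _ (hbc _ _) (he1 _ _))
  · rw [Matrix.fromBlocks_apply₂₂, Matrix.fromBlocks_apply₂₂, hz, sub_zero, he2,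
      Matrix.mul_smul, Matrix.smul_mul, Matrix.smul_apply, smul_eq_mul, mul_assoc,
      mul_div_cancel_left₀ _ hπ0, Matrix.mul_apply, Finset.mul_sum]
    refine hs _ fun k => ?_
    rw [Matrix.mul_apply, Finset.sum_mul, Finset.mul_sum]
    refine hs _ fun l => ?_
    rw [show b ^ 2 * (c i l * e l k * c k j) = (b * c i l) * e l k * (b * c k j) by ring]
    exact O.mul_mem _ _ (O.mul_mem _ _ (hbc _ _) (he1 _ _)) (hbc _ _)

end Pool.T1
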