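import Pool.Agent.H41.T1.S5

/-!
# T1, row QGEK: the residue field at infinity has at least three elements
-/

set_option autoImplicit false

namespace Pool.T1

open Polynomial Matrix Pool.HYP Pool.TOW Pool.AVS IsDedekindDomain

/-- QGEK. -/
theorem qgek : QGEKStmt := by
  intro R _ _ K _ _ _ O π H
  obtain ⟨p, hp, hc⟩ := H.char
  have := H.res
  have h1 : 1 < Nat.card (IsLocalRing.ResidueField O) := Finite.one_lt_card
  rcases Nat.lt_or_ge 2 (Nat.card (IsLocalRing.ResidueField O)) with h | h
  · exact h
  exfalso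
  have h3 : Nat.card (IsLocalRing.ResidueField O) = 2 := by omega
  have h4 : ((2 : ℕ) : IsLocalRing.ResidueField O) = 0 := by
    have := Fintype.ofFinite (IsLocalRing.ResidueField O)
    have h5 := FiniteField.cast_card_eq_zero (IsLocalRing.ResidueField O)
    rw [← Nat.card_eq_fintype_card, h3] at h5
    exact h5
  have h5 : ((p : ℕ) : O) = 0 := by
    apply Subtype.ext
    show ((p : O) : K) = ((0 : O) : K)
    push_cast
    exact CharP.cast_eq_zero K p
  have h6 : ((p : ℕ) : IsLocalRing.ResidueField O) = 0 := by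
    have h7 := congrArg (IsLocalRing.residue O) h5
    rwa [map_natCast, map_zero] at h7
  have hp2 : p ≠ 2 := by
    rintro rfl
    have h8 : ((2 : ℕ) : K) = 0 := CharP.cast_eq_zero K 2
    exact H.two (by exact_mod_cast h8)
  obtain ⟨k, hk⟩ := hp.odd_of_ne_two hp2
  rw [hk, Nat.cast_add, Nat.cast_mul, h4, zero_mul, zero_add, Nat.cast_one] at h6
  exact one_ne_zero h6

end Pool.T1
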