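import Pool.Agent.H14.T1.S3

/-!
# T1, row RCPK: reciprocity for a pair of forms over `K`
-/

set_option autoImplicit false

namespace Pool.T1

open Polynomial Matrix Pool.HYP Pool.TOW Pool.AVS IsDedekindDomain

namespace RCPK50

theorem ui_mul {L : Type} [Field L] (O : ValuationSubring L) {x y : L}
    (hx : UI (O : Set L) x) (hy : UI (O : Set L) y) : UI (O : Set L) (x * y) := by
  obtain ⟨x0, x1, x2⟩ := hx
  obtain ⟨y0, y1, y2⟩ := hy
  refine ⟨mul_ne_zero x0 y0, O.mul_mem _ _ x1 y1, ?_⟩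
  rw [mul_inv]
  exact O.mul_mem _ _ x2 y2

/-- The orthogonal sum of invertible matrices. -/
theorem blk {L : Type} [Field L] (O : ValuationSubring L) {ι κ : Type} [Fintype ι]
    [DecidableEq ι] [Fintype κ] [DecidableEq κ] (A g : Matrix ι ι L) (B h : Matrix κ κ L)
    (hg : GInI (O : Set L) (gᵀ * A * g)) (hh : GInI (O : Set L) (hᵀ * B * h)) :
    GInI (O : Set L) ((Matrix.fromBlocks g 0 0 h)ᵀ * Matrix.fromBlocks A 0 0 (-B) *
      Matrix.fromBlocks g 0 0 h) := by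
  have h1 : (Matrix.fromBlocks g 0 0 h)ᵀ * Matrix.fromBlocks A 0 0 (-B) *
      Matrix.fromBlocks g 0 0 h =
      Matrix.fromBlocks (gᵀ * A * g) 0 0 (-(hᵀ * B * h)) := by
    rw [Matrix.fromBlocks_transpose, Matrix.fromBlocks_multiply, Matrix.fromBlocks_multiply]
    simp only [Matrix.transpose_zero, Matrix.mul_zero, Matrix.zero_mul, add_zero, zero_add,
      Matrix.neg_mul, Matrix.mul_neg, neg_zero]
  rw [h1]
  refine ⟨fun p q => ?_, ?_⟩
  · rcases p with i | i <;> rcases q with j | j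
    · exact hg.1 i j
    · exact O.zero_mem
    · exact O.zero_mem
    · exact O.neg_mem _ (hh.1 i j)
  · rw [Matrix.det_fromBlocks_zero₂₁, Matrix.det_neg]
    refine ui_mul O hg.2 (ui_mul O ?_ hh.2)
    have h2 : ((-1 : L) ^ Fintype.card κ) * ((-1 : L) ^ Fintype.card κ) = 1 := by
      rw [← mul_pow]
      simp
    have h3 : ((-1 : L) ^ Fintype.card κ)⁻¹ = (-1 : L) ^ Fintype.card κ :=
      (eq_inv_of_mul_eq_one_left h2).symm
    refine ⟨pow_ne_zero _ (neg_ne_zero.2 one_ne_zero), ?_, ?_⟩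
    · exact pow_mem (O.neg_mem _ O.one_mem) _
    · rw [h3]
      exact pow_mem (O.neg_mem _ O.one_mem) _

end RCPK50

/-- RCPK. -/
theorem rcpk (hRCL : RCLStmt) (hLDP : LDPStmt) (hGDU : GDUStmt) (hBDP : BDPStmt)
    (hBDI : BDIStmt) (hBAS : BASStmt) (hSEMA : SEMAStmt) (hTRF : TRFStmt) (hFSQ : FSQStmt)
    (hIPV : IPVStmt) : RCPKStmt := by
  classical
  intro F _ _ h2 K _ _ _ _ O hO
  obtain ⟨n, ω, hω, hBd⟩ := hBAS F K
  obtain ⟨s1, s2, s3, s4⟩ := hSEMA F K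
  have hRfin : (⋃ p ∈ {p : F[X] | p.Monic ∧ Irreducible p ∧ ¬ Good ω p},
      {P : HeightOneSpectrum (RR F K) | Abv p P}).Finite :=
    hBd.biUnion fun p hp => s1 p hp.1.ne_zero
  refine ⟨hRfin.toFinset, fun g T ϖ d hTR hϖ A B hA hB hAd hBd' hinf hram hSB hSA hk => ?_⟩
  choose pp hp1 hp2 hp3 hp4 using s3
  have hRam : ∀ p : F[X], p.Monic → Irreducible p → ¬ Good ω p → ∀ P, Abv p P →
      P ∈ hRfin.toFinset := fun p h3 h4 h5 P h6 => by
    rw [Set.Finite.mem_toFinset]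
    exact Set.mem_iUnion₂.2 ⟨p, ⟨h3, h4, h5⟩, h6⟩
  have hgood : ∀ P ∈ T, Good ω (pp P) := fun P hP => by
    by_contra h3
    exact Finset.disjoint_left.1 hTR hP (hRam (pp P) (hp1 P) (hp2 P) h3 P (hp3 P))
  obtain ⟨TF, hTF⟩ : ∃ TF : Finset F[X], TF = T.image pp := ⟨_, rfl⟩
  have hTF1 : ∀ p ∈ TF, p.Monic ∧ Irreducible p ∧ Good ω p := fun p hp => by
    rw [hTF, Finset.mem_image] at hp
    obtain ⟨P, hP, rfl⟩ := hp
    exact ⟨hp1 P, hp2 P, hgood P hP⟩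
  have hTF2 : ∀ p : F[X], p.Monic → Irreducible p → p ∉ TF → ∀ P, Abv p P → P ∉ T :=
    fun p h3 h4 h5 P h6 h7 => by
      apply h5
      rw [hTF, Finset.mem_image]
      exact ⟨P, h7, (hp4 P p h3 h4 h6).symm⟩
  obtain ⟨G, hG⟩ : ∃ G, G = Matrix.fromBlocks (trm ω A) 0 0 (-trm ω B) := ⟨_, rfl⟩
  obtain ⟨t1, t2, t3, t4, t5, t6⟩ := hTRF (RatFunc F) K n (2 * g + 1) ω
  have hGt : Gᵀ = G := by
    rw [hG, Matrix.fromBlocks_transpose, Matrix.transpose_neg, t5 A hA, t5 B hB]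
    simp
  have hdne : ∀ C : Matrix (Fin (2 * g + 1)) (Fin (2 * g + 1)) K, C.det ≠ 0 →
      (trm ω C).det ≠ 0 := fun C hC => by
    rw [t2]
    exact mul_ne_zero (pow_ne_zero _ t4) (Algebra.norm_ne_zero_iff.2 hC)
  have hGd : G.det ≠ 0 := by
    rw [hG, Matrix.det_fromBlocks_zero₂₁, Matrix.det_neg]
    exact mul_ne_zero (hdne A hAd) (mul_ne_zero (pow_ne_zero _ (neg_ne_zero.2 one_ne_zero))
      (hdne B hBd'))
  have hloc : ∀ p : F[X], ∃ (m : ℕ) (δ : F), p ∈ TF → δ ≠ 0 ∧ LocD p G m δ ∧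
      (IsSquare δ ↔ Even {P | P ∈ T ∧ Abv p P ∧
        ¬ SqQ (RP K P) (ϖ P : K) ((-1) ^ g * d P)}.ncard) := by
    intro p
    by_cases hp : p ∈ TF
    · obtain ⟨h3, h4, h5⟩ := hTF1 p hp
      obtain ⟨m, δ, h6, h7, h8⟩ := hLDP F h2 K n g ω p h3 h4 h5 T ϖ d hϖ A B hA hB hAd hBd'
        (fun P _ => hSB P) (fun P _ h => hSA P h) (fun P h _ => hk P h)
      exact ⟨m, δ, fun _ => ⟨h6, hG ▸ h7, h8⟩⟩
    · exact ⟨0, 0, fun h => absurd h hp⟩
  choose m δ hmδ using hloc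
  have hsq : IsSquare (∏ p ∈ TF, δ p) := by
    refine hRCL F _ G TF m δ hGt hGd (fun p hp => ⟨(hTF1 p hp).1, (hTF1 p hp).2.1⟩)
      (fun p hp => ⟨(hmδ p hp).2.1, (hmδ p hp).1⟩) (fun p h3 h4 h5 => ?_) ?_
    · by_cases h6 : Good ω p
      · obtain ⟨g1, h7, h8⟩ := hGDU F K n (2 * g + 1) ω p h3 h4 h6 A
          fun P hP => hSA P (hTF2 p h3 h4 h5 P hP)
        obtain ⟨g2, h9, h10⟩ := hGDU F K n (2 * g + 1) ω p h3 h4 h6 B fun P _ => hSB P
        obtain ⟨V, hV, -⟩ := (hIPV F).1 p h3 h4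
        rw [← hV] at h8 h10
        refine ⟨Matrix.fromBlocks g1 0 0 g2, ?_, ?_⟩
        · rw [Matrix.det_fromBlocks_zero₂₁]
          exact mul_ne_zero h7 h9
        · rw [← hV, hG]
          exact RCPK50.blk V _ _ _ _ h8 h10
      · rw [hG]
        exact hBDP F h2 K n (2 * g + 1) ω p h3 h4 A B hA hB hBd'
          fun P hP => hram P (hRam p h3 h4 h6 P hP)
    · rw [hG]
      exact hBDI F h2 K O hO n (2 * g + 1) ω A B hA hB hBd' hinf
  rw [hFSQ.1 F h2 _ TF δ fun p hp => (hmδ p hp).1] at hsq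
  obtain ⟨S, hS⟩ : ∃ S : Finset (HeightOneSpectrum (RR F K)),
    S = T.filter fun P => ¬ SqQ (RP K P) (ϖ P : K) ((-1) ^ g * d P) := ⟨_, rfl⟩
  have hS1 : {P | P ∈ T ∧ ¬ SqQ (RP K P) (ϖ P : K) ((-1) ^ g * d P)} = (S : Set _) := by
    rw [hS, Finset.coe_filter]
  rw [hS1, Set.ncard_coe_finset]
  have hcard : S.card = ∑ p ∈ TF, (S.filter fun P => pp P = p).card := by
    refine Finset.card_eq_sum_card_fiberwise fun P hP => ?_
    rw [hS, Finset.coe_filter] at hP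
    rw [hTF]
    exact Finset.mem_coe.2 (Finset.mem_image_of_mem _ hP.1)
  have hfib : ∀ p ∈ TF, ({P | P ∈ T ∧ Abv p P ∧
      ¬ SqQ (RP K P) (ϖ P : K) ((-1) ^ g * d P)} : Set _).ncard =
      (S.filter fun P => pp P = p).card := by
    intro p hp
    rw [← Set.ncard_coe_finset]
    congr 1
    ext P
    rw [Finset.coe_filter, hS]
    simp only [Set.mem_ofPred_eq, Finset.mem_filter]
    constructor
    · rintro ⟨h3, h4, h5⟩
      exact ⟨⟨h3, h5⟩, (hp4 P p (hTF1 p hp).1 (hTF1 p hp).2.1 h4).symm⟩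
    · rintro ⟨⟨h3, h5⟩, rfl⟩
      exact ⟨h3, hp3 P, h5⟩
  rw [hcard, Finset.even_sum_iff_even_card_odd]
  have hset : {i | i ∈ TF ∧ ¬ IsSquare (δ i)} =
      ((TF.filter fun p => Odd (S.filter fun P => pp P = p).card : Finset F[X]) : Set F[X]) := by
    ext p
    rw [Finset.coe_filter]
    simp only [Set.mem_ofPred_eq]
    refine and_congr_right fun hp => ?_
    rw [(hmδ p hp).2.2, hfib p hp, Nat.not_even_iff_odd]
  rw [hset, Set.ncard_coe_finset] at hsq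
  exact hsq

end Pool.T1
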